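import Pool.Agent.TH330.CSR.Real

/-!
Vertices and incidences of line arrangements near the simple ones.
-/

set_option autoImplicit false
open scoped LinearAlgebra.Projectivization
open Finset

noncomputable section

namespace Pool.TH330.CSR

/-- the function `k (k + 3) / 2` -/
def tri (k : ℕ) : ℕ := k * (k + 3) / 2

lemma tri_choose (m : ℕ) (hm : 2 ≤ m) : m.choose 2 = 1 + tri (m - 2) := by
  obtain ⟨k, rfl⟩ := Nat.exists_eq_add_of_le hm
  rw [Nat.choose_two_right, show 2 + k - 2 = k by omega, show 2 + k - 1 = k + 1 by omega]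
  unfold tri
  have : (2 + k) * (k + 1) = k * (k + 3) + 2 := by ring
  rw [this]
  omega

lemma f1_eq (A : Finset PP) :
    ({s : PP × PP | 2 ≤ cnt A s.1 ∧ s.2 ∈ A ∧ inc s.1 s.2} : Set (PP × PP)).ncard =
      ∑ p ∈ Pts A, cnt A p := by
  classical
  have e : ({s : PP × PP | 2 ≤ cnt A s.1 ∧ s.2 ∈ A ∧ inc s.1 s.2} : Set (PP × PP)) =
      (((Pts A ×ˢ A).filter (fun s => inc s.1 s.2) : Finset (PP × PP)) : Set (PP × PP)) := by
    ext ⟨p, L⟩
    simp only [Set.mem_ofPred_eq, Finset.coe_filter, Finset.mem_product, mem_Pts]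
    tauto
  rw [e, Set.ncard_coe_finset, Finset.card_filter, Finset.sum_product]
  refine Finset.sum_congr rfl fun p _ => ?_
  unfold cnt
  rw [Finset.card_filter]
  rfl

lemma f0_eq (A : Finset PP) : ({p : PP | 2 ≤ cnt A p} : Set PP).ncard = (Pts A).card := by
  have e : ({p : PP | 2 ≤ cnt A p} : Set PP) = (Pts A : Set PP) := by
    ext p
    rw [Finset.mem_coe, mem_Pts]
    rfl
  rw [e, Set.ncard_coe_finset]

lemma pair_nat (A : Finset PP) : ∑ p ∈ Pts A, (cnt A p).choose 2 = A.card.choose 2 := by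
  have h := pair_sum A
  have : ((∑ p ∈ Pts A, (cnt A p).choose 2 : ℕ) : ℝ) = ((A.card.choose 2 : ℕ) : ℝ) := by
    push_cast
    rw [Nat.cast_choose_two, h, Finset.sum_div]
    exact Finset.sum_congr rfl fun p _ => by rw [Nat.cast_choose_two]
  exact_mod_cast this

theorem forward (A : Finset PP) (e : ℕ)
    (h : ∑ p ∈ Pts A, cnt A p = 2 * (Pts A).card + e) :
    ∃ (n : ℕ) (K : Multiset ℕ), (∀ k ∈ K, 0 < k) ∧ K.sum = e ∧
      (Pts A).card + (K.map tri).sum = n.choose 2 := by
  classical
  refine ⟨A.card, ((Pts A).val.map (fun p => cnt A p - 2)).filter (fun k => 0 < k), ?_, ?_, ?_⟩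
  · intro k hk
    exact (Multiset.mem_filter.1 hk).2
  · have h1 : (((Pts A).val.map (fun p => cnt A p - 2)).filter (fun k => 0 < k)).sum =
        ∑ p ∈ Pts A, (cnt A p - 2) := by
      have h2 : ∀ M : Multiset ℕ, (M.filter (fun k => 0 < k)).sum = M.sum := by
        intro M
        induction M using Multiset.induction_on with
        | empty => simp
        | cons a M ih =>
          by_cases ha : 0 < a
          · rw [Multiset.filter_cons_of_pos _ ha, Multiset.sum_cons, Multiset.sum_cons, ih]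
          · rw [Multiset.filter_cons_of_neg _ ha, Multiset.sum_cons, ih]
            omega
      rw [h2]; rfl
    rw [h1]
    have h3 : ∑ p ∈ Pts A, (cnt A p - 2) + 2 * (Pts A).card = ∑ p ∈ Pts A, cnt A p := by
      rw [mul_comm, ← smul_eq_mul, ← Finset.sum_const, ← Finset.sum_add_distrib]
      refine Finset.sum_congr rfl fun p hp => ?_
      rw [mem_Pts] at hp
      omega
    omega
  · have h1 : ((((Pts A).val.map (fun p => cnt A p - 2)).filter (fun k => 0 < k)).map tri).sum =
        ∑ p ∈ Pts A, tri (cnt A p - 2) := by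
      have h2 : ∀ M : Multiset ℕ, ((M.filter (fun k => 0 < k)).map tri).sum = (M.map tri).sum := by
        intro M
        induction M using Multiset.induction_on with
        | empty => simp
        | cons a M ih =>
          by_cases ha : 0 < a
          · rw [Multiset.filter_cons_of_pos _ ha, Multiset.map_cons, Multiset.map_cons,
              Multiset.sum_cons, Multiset.sum_cons, ih]
          · rw [Multiset.filter_cons_of_neg _ ha, Multiset.map_cons, Multiset.sum_cons, ih]
            have : a = 0 := by omega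
            subst this
            simp [tri]
      rw [h2, Multiset.map_map]; rfl
    rw [h1, ← pair_nat, Finset.card_eq_sum_ones, ← Finset.sum_add_distrib]
    refine Finset.sum_congr rfl fun p hp => ?_
    rw [mem_Pts] at hp
    rw [tri_choose _ hp]

/-- weighted sums over the vertices of an arrangement with prescribed multiplicities -/
lemma wnat (A : Finset PP) (ms : Multiset ℕ) (hms : ∀ m ∈ ms, m ≤ A.card)
    (h : ∀ k, 3 ≤ k → ({p | cnt A p = k} : Set PP).ncard = ms.count k) (w : ℕ → ℕ)
    (hw : ∀ k, k < 3 → w k = 0) :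
    ∑ p ∈ Pts A, w (cnt A p) = (ms.map w).sum := by
  classical
  have h1 := wsum A (fun k => (w k : ℝ))
  have h2 : ((∑ p ∈ Pts A, w (cnt A p) : ℕ) : ℝ) = (((ms.map w).sum : ℕ) : ℝ) := by
    rw [Nat.cast_sum, ← h1]
    rw [Finset.sum_multiset_map_count]
    have h3 : ∑ m ∈ ms.toFinset, ms.count m • w m =
        ∑ m ∈ Finset.Icc 2 A.card, ms.count m • w m := by
      have h4 : ∀ S : Finset ℕ, ∑ m ∈ S, ms.count m • w m =
          ∑ m ∈ S.filter (fun m => 3 ≤ m ∧ m ∈ ms), ms.count m • w m := by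
        intro S
        rw [Finset.sum_filter]
        refine Finset.sum_congr rfl fun m _ => ?_
        split_ifs with hc
        · rfl
        · by_cases h3 : 3 ≤ m
          · have : m ∉ ms := fun hm => hc ⟨h3, hm⟩
            rw [Multiset.count_eq_zero_of_notMem this, zero_smul]
          · rw [hw m (by omega), smul_zero]
      rw [h4, h4 (Finset.Icc 2 A.card)]
      congr 1
      ext m
      simp only [Finset.mem_filter, Multiset.mem_toFinset, Finset.mem_Icc]
      constructor
      · rintro ⟨_, b, c⟩; exact ⟨⟨by omega, hms m c⟩, b, c⟩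
      · rintro ⟨_, b, c⟩; exact ⟨c, b, c⟩
    rw [h3, Nat.cast_sum]
    refine Finset.sum_congr rfl fun k hk => ?_
    by_cases h3 : 3 ≤ k
    · have : ({p : PP | (A.filter (fun L => ∑ i, p.rep i * L.rep i = 0)).card = k}.ncard : ℕ)
        = ms.count k := h k h3
      rw [this, smul_eq_mul]
      push_cast; ring
    · rw [hw k (by omega)]; simp
  exact_mod_cast h2

theorem backward (e f0 n : ℕ) (K : Multiset ℕ) (hK : ∀ k ∈ K, 0 < k) (hs : K.sum = e)
    (hf : f0 + (K.map tri).sum = n.choose 2) (hn : 3 * e < n) (hn3 : 3 ≤ n) :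
    ∃ A : Finset PP, 3 ≤ A.card ∧ (¬ ∃ p, ∀ L ∈ A, inc p L) ∧ (Pts A).card = f0 ∧
      ∑ p ∈ Pts A, cnt A p = 2 * f0 + e := by
  classical
  have hle : ∀ k ∈ K, k ≤ e := by
    intro k hk
    rw [← hs]
    exact Multiset.single_le_sum (fun _ _ => Nat.zero_le _) k hk
  have hsum2 : ((K.map (fun k => k + 2)).sum) ≤ 3 * e := by
    rw [← hs]
    clear hf hle hs
    induction K using Multiset.induction_on with
    | empty => simp
    | cons a K ih =>
      rw [Multiset.map_cons, Multiset.sum_cons, Multiset.sum_cons]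
      have := ih fun k hk => hK k (Multiset.mem_cons_of_mem hk)
      have := hK a (Multiset.mem_cons_self a K)
      omega
  set ms : Multiset ℕ := K.map (fun k => k + 2) +
    Multiset.replicate (n - (K.map (fun k => k + 2)).sum) 1 with hmsd
  have hms0 : ∀ m ∈ ms, m ≠ 0 := by
    intro m hm
    rcases Multiset.mem_add.1 hm with hm | hm
    · obtain ⟨k, _, rfl⟩ := Multiset.mem_map.1 hm
      omega
    · rw [Multiset.eq_of_mem_replicate hm]; norm_num
  have hsum : ms.sum = n := by
    rw [hmsd, Multiset.sum_add, Multiset.sum_replicate, smul_eq_mul, mul_one]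
    omega
  obtain ⟨A, hA, hA3⟩ := real_list ms hms0
  rw [hsum] at hA
  have hlt : ∀ m ∈ ms, m < n := by
    intro m hm
    rcases Multiset.mem_add.1 hm with hm | hm
    · obtain ⟨k, hk, rfl⟩ := Multiset.mem_map.1 hm
      have := hK k hk
      have := hle k hk
      omega
    · rw [Multiset.eq_of_mem_replicate hm]; omega
  have W := wnat A ms (fun m hm => by rw [hA]; exact (hlt m hm).le) hA3
  have hrep : ∀ w : ℕ → ℕ, w 1 = 0 → (ms.map w).sum = (K.map (fun k => w (k + 2))).sum := by
    intro w hw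
    rw [hmsd, Multiset.map_add, Multiset.sum_add, Multiset.map_replicate, Multiset.sum_replicate,
      hw, smul_zero, add_zero, Multiset.map_map]
    rfl
  have hp : ¬ ∃ p, ∀ L ∈ A, inc p L := by
    rintro ⟨p, hp⟩
    have h5 : cnt A p = n := by rw [cnt_all_of A p hp, hA]
    have h6 := hA3 n hn3
    rw [Multiset.count_eq_zero_of_notMem (fun hm => lt_irrefl _ (hlt n hm))] at h6
    have hfin : ({p | cnt A p = n} : Set PP).Finite := by
      refine (Pts A).finite_toSet.subset ?_
      intro p hp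
      have hp' : cnt A p = n := hp
      rw [Finset.mem_coe, mem_Pts]; omega
    rw [Set.ncard_eq_zero hfin] at h6
    have : p ∈ ({p | cnt A p = n} : Set PP) := h5
    rw [h6] at this
    exact this
  have h1 : ∑ p ∈ Pts A, (cnt A p - 2) = e := by
    rw [W (fun k => k - 2) (fun k hk => by omega), hrep (fun k => k - 2) rfl, ← hs]
    congr 1
    rw [Multiset.map_congr rfl (g := fun k => k) (fun k _ => by simp)]
    exact Multiset.map_id' K
  have h2 : ∑ p ∈ Pts A, tri (cnt A p - 2) = (K.map tri).sum := by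
    rw [W (fun k => tri (k - 2)) (fun k hk => by
      have : k - 2 = 0 := by omega
      rw [this]; rfl), hrep (fun k => tri (k - 2)) rfl]
    rfl
  have h3 := pair_nat A
  have h4 : ∑ p ∈ Pts A, (cnt A p).choose 2 = (Pts A).card + ∑ p ∈ Pts A, tri (cnt A p - 2) := by
    rw [Finset.card_eq_sum_ones, ← Finset.sum_add_distrib]
    refine Finset.sum_congr rfl fun p hp => ?_
    rw [mem_Pts] at hp
    rw [tri_choose _ hp]
  have h5 : ∑ p ∈ Pts A, (cnt A p - 2) + 2 * (Pts A).card = ∑ p ∈ Pts A, cnt A p := by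
    rw [mul_comm, ← smul_eq_mul, ← Finset.sum_const, ← Finset.sum_add_distrib]
    refine Finset.sum_congr rfl fun p hp => ?_
    rw [mem_Pts] at hp
    omega
  rw [h4, h2, hA, ← hf] at h3
  refine ⟨A, by omega, hp, by omega, by omega⟩

theorem fvec (e : ℕ) (f0 : ℕ) (hf0 : (3 * e).choose 2 + 4 ≤ f0) :
    (∃ A : Finset PP, 3 ≤ A.card ∧ (¬ ∃ p, ∀ L ∈ A, inc p L) ∧
      ({p : PP | 2 ≤ cnt A p} : Set PP).ncard = f0 ∧
      ({s : PP × PP | 2 ≤ cnt A s.1 ∧ s.2 ∈ A ∧ inc s.1 s.2} : Set (PP × PP)).ncard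
        = 2 * f0 + e) ↔
    ∃ (n : ℕ) (K : Multiset ℕ), (∀ k ∈ K, 0 < k) ∧ K.sum = e ∧
      f0 + (K.map tri).sum = n.choose 2 := by
  constructor
  · rintro ⟨A, _, _, h1, h2⟩
    rw [f0_eq] at h1
    rw [f1_eq, ← h1] at h2
    obtain ⟨n, K, a, b, c⟩ := forward A e h2
    exact ⟨n, K, a, b, by rw [← h1]; exact c⟩
  · rintro ⟨n, K, a, b, c⟩
    have hn : (3 * e).choose 2 + 4 ≤ n.choose 2 := by omega
    have hn1 : 3 * e < n := by
      by_contra h
      have := Nat.choose_le_choose 2 (not_lt.1 h)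
      omega
    have hn3 : 3 ≤ n := by
      by_contra h
      have := Nat.choose_le_choose 2 (by omega : n ≤ 3)
      simp at this
      omega
    obtain ⟨A, h1, h2, h3, h4⟩ := backward e f0 n K a b c hn1 hn3
    exact ⟨A, h1, h2, by rw [f0_eq, h3], by rw [f1_eq, h4]⟩

end Pool.TH330.CSR
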