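import Pool.Agent.TH330.CSR.Real

/-!
Pencils whose centres are joined by lines.
-/

set_option autoImplicit false
open scoped LinearAlgebra.Projectivization
open Finset

noncomputable section

namespace Pool.TH330.CSR

/-- a point outside finitely many lines and points -/
lemma ex_pt' (A F : Finset PP) : ∃ x y : ℝ, (∀ L ∈ A, ¬ inc (pt x y) L) ∧ pt x y ∉ F := by
  classical
  obtain ⟨c, hc⟩ : ∃ c, hl c ∉ A := by
    by_contra h
    push Not at h
    have : (Set.range hl).Finite := A.finite_toSet.subset (by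
      rintro _ ⟨c, rfl⟩; exact h c)
    exact Set.infinite_range_of_injective hl_inj this
  obtain ⟨x, hx⟩ : ∃ x, pt x c ∉ A.image (fun L => mt (hl c, L)) ∪ F := by
    by_contra h
    push Not at h
    have : (Set.range (fun x => pt x c)).Finite :=
      (A.image (fun L => mt (hl c, L)) ∪ F).finite_toSet.subset (by
        rintro _ ⟨x, rfl⟩; exact h x)
    exact Set.infinite_range_of_injective (pt_inj c) this
  rw [Finset.mem_union, not_or] at hx
  refine ⟨x, c, fun L hL hi => hx.1 ?_, hx.2⟩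
  have hne : hl c ≠ L := fun e => hc (e ▸ hL)
  rw [Finset.mem_image]
  refine ⟨L, hL, ?_⟩
  refine uniq (mt_left hne) (mt_right hne) ?_ hi hne
  unfold hl
  rw [inc_pt]; simp

/-- adding lines through a given point -/
lemma fill (A F : Finset PP) (x y : ℝ) (r : ℕ) : ∃ B : Finset PP, B.card = r ∧ Disjoint A B ∧
    (∀ L ∈ B, inc (pt x y) L) ∧ (∀ q, q ≠ pt x y → cnt B q ≤ 1) ∧
    (∀ q, q ≠ pt x y → q ∈ F → cnt B q = 0) ∧ (∀ q, q ≠ pt x y → 2 ≤ cnt A q → cnt B q = 0) := by
  classical
  set P := pt x y with hPd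
  have hfin : ∀ q ∈ (Pts A ∪ F).erase P, ({t | inc q (sl x y t)} : Set ℝ).Finite := by
    intro q hq
    have hqP : q ≠ P := (Finset.mem_erase.1 hq).1
    refine Set.Subsingleton.finite ?_
    intro t ht t' ht'
    by_contra hne
    have hne' : sl x y t ≠ sl x y t' := fun e => hne (sl_inj x y e)
    exact hqP (uniq ht ht' (inc_sl x y t) (inc_sl x y t') hne')
  have hfA : ({t | sl x y t ∈ A} : Set ℝ).Finite :=
    A.finite_toSet.preimage (sl_inj x y).injOn
  set bad : Set ℝ := {t | sl x y t ∈ A} ∪ ⋃ q ∈ (Pts A ∪ F).erase P, {t | inc q (sl x y t)}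
    with hbad
  have hbf : bad.Finite := hfA.union (((Pts A ∪ F).erase P).finite_toSet.biUnion hfin)
  obtain ⟨T, hT, hTc⟩ := hbf.infinite_compl.exists_subset_card_eq r
  have hcard : (T.image (sl x y)).card = r := by
    rw [Finset.card_image_of_injective _ (sl_inj x y), hTc]
  have havoid : ∀ q, q ≠ P → q ∈ Pts A ∪ F → cnt (T.image (sl x y)) q = 0 := by
    intro q hqP hq
    unfold cnt
    rw [Finset.card_eq_zero, Finset.filter_eq_empty_iff]
    intro L hL hi
    obtain ⟨t, ht, rfl⟩ := Finset.mem_image.1 hL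
    have h1 : t ∈ badᶜ := hT ht
    apply h1
    rw [hbad]
    right
    rw [Set.mem_iUnion₂]
    exact ⟨q, Finset.mem_erase.2 ⟨hqP, hq⟩, hi⟩
  refine ⟨T.image (sl x y), hcard, ?_, ?_, ?_, ?_, ?_⟩
  · rw [Finset.disjoint_left]
    intro L hL hL'
    obtain ⟨t, ht, rfl⟩ := Finset.mem_image.1 hL'
    have h1 : t ∈ badᶜ := hT ht
    apply h1
    rw [hbad]
    left
    exact hL
  · intro L hL
    obtain ⟨t, _, rfl⟩ := Finset.mem_image.1 hL
    exact inc_sl x y t
  · intro q hq
    unfold cnt
    rw [Finset.card_le_one]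
    intro L hL M hM
    rw [Finset.mem_filter] at hL hM
    obtain ⟨t, _, rfl⟩ := Finset.mem_image.1 hL.1
    obtain ⟨t', _, rfl⟩ := Finset.mem_image.1 hM.1
    by_contra hne
    exact hq (uniq hL.2 hM.2 (inc_sl x y t) (inc_sl x y t') hne)
  · intro q hq hF
    exact havoid q hq (Finset.mem_union_right _ hF)
  · intro q hq h2
    exact havoid q hq (Finset.mem_union_left _ ((mem_Pts A q).2 h2))

/-- the join of two points contains them; the roles of points and lines are symmetric -/
lemma inc_comm (p L : PP) : inc p L ↔ inc L p := by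
  rw [inc_orth, inc_orth, Projectivization.orthogonal_comm]

lemma join_left {p q : PP} (h : p ≠ q) : inc p (mt (p, q)) := (inc_comm _ _).2 (mt_left h)
lemma join_right {p q : PP} (h : p ≠ q) : inc q (mt (p, q)) := (inc_comm _ _).2 (mt_right h)
lemma join_uniq {p q L M : PP} (hpq : p ≠ q) (h1 : inc p L) (h2 : inc q L) (h3 : inc p M)
    (h4 : inc q M) : L = M := by
  by_contra h
  exact hpq (uniq h1 h3 h2 h4 h)

/-- complete configurations -/
lemma complete (V : ℕ) : ∃ C J : Finset PP, C.card = V ∧ (∀ P ∈ C, ∃ x y, P = pt x y) ∧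
    J.card = V.choose 2 ∧ (∀ q, q ∉ C → cnt J q ≤ 2) ∧ (∀ P ∈ C, cnt J P + 1 ≤ V) ∧
    2 * J.card ≤ ∑ P ∈ C, cnt J P := by
  classical
  induction V with
  | zero =>
    refine ⟨∅, ∅, by simp, by simp, by simp, ?_, by simp, by simp⟩
    intro q _
    unfold cnt; simp
  | succ V ih =>
    obtain ⟨C, J, hC, hCf, hJ, h2, h3, h4⟩ := ih
    set bad : Finset PP := J ∪ ((C ×ˢ (C ∪ Pts J)).image (fun s => mt (s.1, s.2))) with hbad
    obtain ⟨x, y, hP, hPC⟩ := ex_pt' bad C
    set P := pt x y with hPd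
    have hPJ : ∀ L ∈ J, ¬ inc P L := fun L hL => hP L (Finset.mem_union_left _ hL)
    have hPne : ∀ Q ∈ C, P ≠ Q := fun Q hQ e => hPC (e ▸ hQ)
    -- key: the join of P and Q contains no other point of C ∪ Pts J
    have key : ∀ Q ∈ C, ∀ q ∈ C ∪ Pts J, q ≠ Q → ¬ inc q (mt (P, Q)) := by
      intro Q hQ q hq hne hi
      have e : mt (P, Q) = mt (Q, q) := by
        refine join_uniq hne.symm (join_right (hPne Q hQ)) hi (join_left hne.symm)
          (join_right hne.symm)
      have h5 : inc P (mt (Q, q)) := by rw [← e]; exact join_left (hPne Q hQ)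
      refine hP _ ?_ h5
      refine Finset.mem_union_right _ (Finset.mem_image.2 ⟨(Q, q), ?_, rfl⟩)
      exact Finset.mem_product.2 ⟨hQ, hq⟩
    set N : Finset PP := C.image (fun Q => mt (P, Q)) with hN
    have hNinc : ∀ L ∈ N, inc P L := by
      intro L hL
      obtain ⟨Q, hQ, rfl⟩ := Finset.mem_image.1 hL
      exact join_left (hPne Q hQ)
    have hNcard : N.card = V := by
      rw [hN, Finset.card_image_of_injOn, hC]
      intro Q hQ Q' hQ' e
      by_contra hne
      have e' : mt (P, Q) = mt (P, Q') := e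
      refine key Q hQ Q' (Finset.mem_union_left _ hQ') (Ne.symm hne) ?_
      rw [e']
      exact join_right (hPne Q' hQ')
    have hd : Disjoint J N := by
      rw [Finset.disjoint_left]
      intro L hL hL'
      exact hPJ L hL (hNinc L hL')
    have hN1 : ∀ q, q ≠ P → cnt N q ≤ 1 := by
      intro q hq
      unfold cnt
      rw [Finset.card_le_one]
      intro L hL M hM
      rw [Finset.mem_filter] at hL hM
      by_contra hne
      exact hq (uniq hL.2 hM.2 (hNinc L hL.1) (hNinc M hM.1) hne)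
    have hNC : ∀ Q ∈ C, cnt N Q = 1 := by
      intro Q hQ
      refine le_antisymm (hN1 Q (hPne Q hQ).symm) ?_
      unfold cnt
      rw [Nat.one_le_iff_ne_zero, ← Nat.pos_iff_ne_zero, Finset.card_pos]
      exact ⟨mt (P, Q), Finset.mem_filter.2 ⟨Finset.mem_image_of_mem _ hQ,
        join_right (hPne Q hQ)⟩⟩
    have hcP : cnt (J ∪ N) P = V := by
      rw [cnt_union J N hd, cnt_zero_of J P hPJ, cnt_all_of N P hNinc, hNcard, zero_add]
    refine ⟨insert P C, J ∪ N, ?_, ?_, ?_, ?_, ?_, ?_⟩
    · rw [Finset.card_insert_of_notMem hPC, hC]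
    · intro Q hQ
      rcases Finset.mem_insert.1 hQ with rfl | hQ
      · exact ⟨x, y, rfl⟩
      · exact hCf Q hQ
    · rw [Finset.card_union_of_disjoint hd, hJ, hNcard, Nat.choose_succ_left V 2 (by norm_num)]
      simp [add_comm]
    · intro q hq
      rw [Finset.mem_insert, not_or] at hq
      rw [cnt_union J N hd]
      have a := h2 q hq.2
      have b := hN1 q hq.1
      by_cases h : 2 ≤ cnt J q
      · have : cnt N q = 0 := by
          refine cnt_zero_of N q ?_
          intro L hL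
          obtain ⟨Q, hQ, rfl⟩ := Finset.mem_image.1 hL
          refine key Q hQ q (Finset.mem_union_right _ ((mem_Pts J q).2 h)) ?_
          rintro rfl
          exact hq.2 hQ
        omega
      · omega
    · intro Q hQ
      rcases Finset.mem_insert.1 hQ with rfl | hQ
      · rw [hcP]
      · rw [cnt_union J N hd, hNC Q hQ]
        have := h3 Q hQ
        omega
    · rw [Finset.sum_insert hPC, hcP, Finset.card_union_of_disjoint hd, hNcard]
      have : ∑ Q ∈ C, cnt (J ∪ N) Q = ∑ Q ∈ C, cnt J Q + V := by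
        rw [Finset.sum_congr rfl (fun Q hQ => by rw [cnt_union J N hd, hNC Q hQ])]
        rw [Finset.sum_add_distrib]
        simp [hC]
      rw [this]
      omega

/-- filling up the centres -/
lemma fill_all (C J : Finset PP) (hCf : ∀ P ∈ C, ∃ x y, P = pt x y)
    (h2 : ∀ q, q ∉ C → cnt J q ≤ 2) (m : PP → ℕ) (hm : ∀ P ∈ C, cnt J P ≤ m P) :
    ∀ T ⊆ C, ∃ A : Finset PP, A.card + ∑ P ∈ T, cnt J P = J.card + ∑ P ∈ T, m P ∧
      (∀ P ∈ T, cnt A P = m P) ∧ (∀ P ∈ C, P ∉ T → cnt A P = cnt J P) ∧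
      (∀ q, q ∉ C → cnt A q ≤ 2) := by
  classical
  intro T
  induction T using Finset.induction_on with
  | empty => intro _; exact ⟨J, by simp, by simp, fun P _ _ => rfl, h2⟩
  | insert P T hPT ih =>
    intro hTC
    obtain ⟨A, hA, h5, h6, h7⟩ := ih fun Q hQ => hTC (Finset.mem_insert_of_mem hQ)
    have hPC : P ∈ C := hTC (Finset.mem_insert_self P T)
    obtain ⟨x, y, rfl⟩ := hCf P hPC
    obtain ⟨B, hB, hd, hBi, hB1, hBF, hB2⟩ := fill A C x y (m (pt x y) - cnt J (pt x y))
    have hmP := hm _ hPC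
    refine ⟨A ∪ B, ?_, ?_, ?_, ?_⟩
    · rw [Finset.sum_insert hPT, Finset.sum_insert hPT, Finset.card_union_of_disjoint hd, hB]
      omega
    · intro Q hQ
      rw [cnt_union A B hd]
      rcases Finset.mem_insert.1 hQ with rfl | hQ
      · rw [h6 _ hPC hPT, cnt_all_of B _ hBi, hB]; omega
      · have hne : Q ≠ pt x y := by rintro rfl; exact hPT hQ
        rw [h5 Q hQ, hBF Q hne (hTC (Finset.mem_insert_of_mem hQ)), add_zero]
    · intro Q hQ hQT
      rw [Finset.mem_insert, not_or] at hQT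
      rw [cnt_union A B hd, h6 Q hQ hQT.2, hBF Q hQT.1 hQ, add_zero]
    · intro q hq
      have hne : q ≠ pt x y := by rintro rfl; exact hq hPC
      rw [cnt_union A B hd]
      have a := h7 q hq
      have b := hB1 q hne
      by_cases h : 2 ≤ cnt A q
      · have := hB2 q hne h
        omega
      · omega

/-- realization: the points of multiplicity at least three are indexed by `ι` -/
lemma real_index {ι : Type} [Fintype ι] (m : ι → ℕ) (n : ℕ)
    (hm : ∀ i, Fintype.card ι ≤ m i + 1) (hm3 : ∀ i, 3 ≤ m i)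
    (hn : ∑ i, m i ≤ n + (Fintype.card ι).choose 2) :
    ∃ A : Finset PP, A.card = n ∧ ∀ k, 3 ≤ k → ({p | cnt A p = k} : Set PP).ncard =
      (Finset.univ.filter (fun i => m i = k)).card := by
  classical
  obtain ⟨C, J, hC, hCf, hJ, h2, h3, h4⟩ := complete (Fintype.card ι)
  have e : C ≃ ι := Fintype.equivOfCardEq (by rw [Fintype.card_coe, hC])
  let m' : PP → ℕ := fun P => if h : P ∈ C then m (e ⟨P, h⟩) else 0
  have hm' : ∀ P ∈ C, cnt J P ≤ m' P := by
    intro P hP
    have a := h3 P hP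
    have b := hm (e ⟨P, hP⟩)
    simp only [m', dif_pos hP]
    omega
  obtain ⟨A, hA, h5, h6, h7⟩ := fill_all C J hCf h2 m' hm' C (Finset.Subset.refl C)
  have hsum : ∑ P ∈ C, m' P = ∑ i, m i := by
    rw [← Finset.sum_coe_sort C]
    refine Fintype.sum_equiv e _ _ fun P => ?_
    simp only [m', dif_pos P.2]
  have hcount : ∀ k, 3 ≤ k → ({p | cnt A p = k} : Set PP).ncard =
      (Finset.univ.filter (fun i => m i = k)).card := by
    intro k hk
    have e1 : ({p | cnt A p = k} : Set PP) = ((C.filter (fun P => m' P = k) : Finset PP) : Set PP) := by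
      ext q
      rw [Finset.mem_coe, Finset.mem_filter]
      constructor
      · intro h
        have h' : cnt A q = k := h
        have hq : q ∈ C := by
          by_contra hq
          have := h7 q hq
          omega
        exact ⟨hq, by rw [← h5 q hq]; exact h'⟩
      · rintro ⟨hq, h⟩
        change cnt A q = k
        rw [h5 q hq, h]
    rw [e1, Set.ncard_coe_finset]
    refine Finset.card_bij (fun P hP => e ⟨P, (Finset.mem_filter.1 hP).1⟩) ?_ ?_ ?_
    · intro P hP
      have h := (Finset.mem_filter.1 hP)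
      rw [Finset.mem_filter]
      refine ⟨Finset.mem_univ _, ?_⟩
      have := h.2
      simp only [m', dif_pos h.1] at this
      exact this
    · intro P hP Q hQ h
      have := e.injective h
      exact congrArg Subtype.val this
    · intro i hi
      refine ⟨(e.symm i).1, ?_, ?_⟩
      · rw [Finset.mem_filter]
        refine ⟨(e.symm i).2, ?_⟩
        simp only [m', dif_pos (e.symm i).2]
        rw [show (⟨((e.symm i) : C).1, (e.symm i).2⟩ : C) = e.symm i from rfl, e.apply_symm_apply]
        exact (Finset.mem_filter.1 hi).2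
      · exact e.apply_symm_apply i
  have hle : A.card ≤ n := by
    rw [hsum] at hA
    omega
  -- add generic lines
  obtain ⟨s, hs⟩ := Nat.exists_eq_add_of_le hle
  have hgen : ∀ s : ℕ, ∃ A' : Finset PP, A'.card = A.card + s ∧
      ∀ k, 3 ≤ k → ({p | cnt A' p = k} : Set PP).ncard = ({p | cnt A p = k} : Set PP).ncard := by
    intro s
    induction s with
    | zero => exact ⟨A, rfl, fun _ _ => rfl⟩
    | succ s ih =>
      obtain ⟨A₁, ha, hb⟩ := ih
      obtain ⟨A₂, hc, hd⟩ := step A₁ 1 one_ne_zero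
      refine ⟨A₂, by rw [hc, ha]; ring, fun k hk => ?_⟩
      rw [hd k hk, hb k hk, if_neg (by omega), add_zero]
  obtain ⟨A', ha, hb⟩ := hgen s
  exact ⟨A', by rw [ha, hs], fun k hk => by rw [hb k hk, hcount k hk]⟩

/-- index set of the multiple points -/
abbrev Idx (n : ℕ) (v : ℕ → ℕ) : Type := Σ i : {i // i ∈ Finset.Icc 3 (n - 1)}, Fin (v i.1)

lemma card_Idx (n : ℕ) (v : ℕ → ℕ) :
    Fintype.card (Idx n v) = ∑ j ∈ Finset.Icc 3 (n - 1), v j := by
  rw [Fintype.card_sigma, ← Finset.sum_coe_sort (Finset.Icc 3 (n - 1))]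
  simp

lemma sum_Idx (n : ℕ) (v : ℕ → ℕ) :
    ∑ s : Idx n v, s.1.1 = ∑ i ∈ Finset.Icc 3 (n - 1), i * v i := by
  rw [Fintype.sum_sigma, ← Finset.sum_coe_sort (Finset.Icc 3 (n - 1))]
  refine Finset.sum_congr rfl fun i _ => ?_
  simp [mul_comm]

/-- main theorem -/
theorem main (n : ℕ) (hn : 3 ≤ n) (v : ℕ → ℕ)
    (h1 : ∑ i ∈ Finset.Icc 2 (n - 1), i.choose 2 * v i = n.choose 2)
    (h2 : ∀ i ∈ Finset.Icc 3 (n - 1), v i ≠ 0 → ∑ j ∈ Finset.Icc 3 (n - 1), v j ≤ i + 1)
    (h3 : ∑ i ∈ Finset.Icc 3 (n - 1), i * v i ≤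
      n + (∑ j ∈ Finset.Icc 3 (n - 1), v j).choose 2) :
    ∃ A : Finset PP, A.card = n ∧ (¬ ∃ p, ∀ L ∈ A, inc p L) ∧
      ∀ i ∈ Finset.Icc 2 (n - 1), ({p | cnt A p = i} : Set PP).ncard = v i := by
  classical
  let ι := Idx n v
  have hcard : Fintype.card ι = ∑ j ∈ Finset.Icc 3 (n - 1), v j := card_Idx n v
  let m : ι → ℕ := fun s => s.1.1
  obtain ⟨A, hA, hA3⟩ := real_index m n
    (by
      intro s
      rw [hcard]
      have : v s.1.1 ≠ 0 := by
        have := s.2.2
        omega
      exact h2 s.1.1 s.1.2 this)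
    (by
      intro s
      exact (Finset.mem_Icc.1 s.1.2).1)
    (by
      rw [hcard]
      refine le_trans (le_of_eq ?_) h3
      exact sum_Idx n v)
  have hv : ∀ k ∈ Finset.Icc 3 (n - 1), ({p | cnt A p = k} : Set PP).ncard = v k := by
    intro k hk
    rw [hA3 k (Finset.mem_Icc.1 hk).1]
    have : (Finset.univ.filter (fun s : ι => m s = k)) =
        (Finset.univ : Finset (Fin (v k))).map ⟨fun j => (⟨⟨k, hk⟩, j⟩ : ι), by
          intro a b h
          simpa using h⟩ := by
      ext ⟨⟨i, hi⟩, j⟩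
      simp only [m, Finset.mem_filter, Finset.mem_univ, true_and, Finset.mem_map,
        Function.Embedding.coeFn_mk]
      constructor
      · rintro rfl
        exact ⟨j, rfl⟩
      · rintro ⟨j', h⟩
        have := congrArg (fun s : ι => s.1.1) h
        exact this.symm
    rw [this, Finset.card_map, Finset.card_univ, Fintype.card_fin]
  have hn0 : ({p | cnt A p = n} : Set PP).ncard = 0 := by
    rw [hA3 n hn, Finset.card_eq_zero, Finset.filter_eq_empty_iff]
    intro s _ h
    have := (Finset.mem_Icc.1 s.1.2).2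
    simp only [m] at h
    omega
  have hfin : ({p | cnt A p = n} : Set PP).Finite := by
    refine (Pts A).finite_toSet.subset ?_
    intro p hp
    have hp' : cnt A p = n := hp
    rw [Finset.mem_coe, mem_Pts]; omega
  refine ⟨A, hA, ?_, ?_⟩
  · rintro ⟨p, hp⟩
    have h5 : cnt A p = n := by rw [cnt_all_of A p hp, hA]
    rw [Set.ncard_eq_zero hfin] at hn0
    have : p ∈ ({p | cnt A p = n} : Set PP) := h5
    rw [hn0] at this
    exact this
  · -- the double points
    have hw := wsum A (fun k => (k : ℝ) * (k - 1))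
    rw [← pair_sum A, hA] at hw
    have hIcc : Finset.Icc 2 n = insert n (Finset.Icc 2 (n - 1)) := by
      ext k; simp only [Finset.mem_Icc, Finset.mem_insert]; omega
    have hIcc2 : Finset.Icc 2 (n - 1) = insert 2 (Finset.Icc 3 (n - 1)) := by
      ext k; simp only [Finset.mem_Icc, Finset.mem_insert]; omega
    have hnn : n ∉ Finset.Icc 2 (n - 1) := by rw [Finset.mem_Icc]; omega
    have h22 : (2 : ℕ) ∉ Finset.Icc 3 (n - 1) := by rw [Finset.mem_Icc]; omega
    rw [hIcc, Finset.sum_insert hnn] at hw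
    have hn0' : ({p : PP | (A.filter (fun L => ∑ i, p.rep i * L.rep i = 0)).card = n}.ncard : ℕ)
        = 0 := hn0
    rw [hn0', hIcc2, Finset.sum_insert h22] at hw
    have hv' : ∑ k ∈ Finset.Icc 3 (n - 1), (k : ℝ) * (k - 1) *
        (({p : PP | (A.filter (fun L => ∑ i, p.rep i * L.rep i = 0)).card = k}.ncard : ℕ) : ℝ) =
        ∑ k ∈ Finset.Icc 3 (n - 1), (k : ℝ) * (k - 1) * v k := by
      refine Finset.sum_congr rfl fun k hk => ?_
      have : ({p : PP | (A.filter (fun L => ∑ i, p.rep i * L.rep i = 0)).card = k}.ncard : ℕ)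
        = v k := hv k hk
      rw [this]
    rw [hv'] at hw
    rw [hIcc2, Finset.sum_insert h22] at h1
    have h1' : (2 * v 2 : ℝ) + ∑ k ∈ Finset.Icc 3 (n - 1), (k : ℝ) * (k - 1) * v k =
        (n : ℝ) * (n - 1) := by
      have c : ∀ k : ℕ, ((k.choose 2 : ℕ) : ℝ) = (k : ℝ) * (k - 1) / 2 := by
        intro k; exact Nat.cast_choose_two ℝ k
      have h1r : (((Nat.choose 2 2 * v 2 + ∑ i ∈ Finset.Icc 3 (n - 1), i.choose 2 * v i : ℕ)) : ℝ)
          = ((n.choose 2 : ℕ) : ℝ) := by rw [h1]
      push_cast at h1r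
      rw [c n] at h1r
      have c2 : ∑ i ∈ Finset.Icc 3 (n - 1), ((i.choose 2 : ℕ) : ℝ) * (v i : ℝ) =
          (∑ k ∈ Finset.Icc 3 (n - 1), (k : ℝ) * (k - 1) * v k) / 2 := by
        rw [Finset.sum_div]
        refine Finset.sum_congr rfl fun k _ => ?_
        rw [c k]; ring
      rw [c2] at h1r
      simp at h1r
      linarith
    have ht2 : ({p | cnt A p = 2} : Set PP).ncard = v 2 := by
      have : ((({p : PP | (A.filter (fun L => ∑ i, p.rep i * L.rep i = 0)).card = 2}.ncard : ℕ) : ℝ))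
        = v 2 := by
        push_cast at hw
        linarith
      exact_mod_cast this
    intro i hi
    rw [hIcc2, Finset.mem_insert] at hi
    rcases hi with rfl | hi
    · exact ht2
    · exact hv i hi

end Pool.TH330.CSR
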