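import Pool.Agent.TH330.CSR.Full

/-!
The known necessary conditions, and the characterization.
-/

set_option autoImplicit false
open scoped LinearAlgebra.Projectivization
open Finset

noncomputable section

namespace Pool.TH330.CSR

lemma nec (A D : Finset PP) :
    (∑ p ∈ D, (cnt A p : ℝ)) ≤ A.card + ((D.card.choose 2 : ℕ) : ℝ) := by
  classical
  have e1 : (∑ p ∈ D, (cnt A p : ℝ)) = ∑ L ∈ A, ((D.filter (fun p => inc p L)).card : ℝ) := by
    have a : ∀ p ∈ D, (cnt A p : ℝ) = ∑ L ∈ A, if inc p L then (1 : ℝ) else 0 := by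
      intro p _
      rw [Finset.sum_boole]
      rfl
    rw [Finset.sum_congr rfl a, Finset.sum_comm]
    refine Finset.sum_congr rfl fun L _ => ?_
    rw [Finset.sum_boole]
  have e2 : ∀ k : ℕ, (k : ℝ) ≤ 1 + (k : ℝ) * (k - 1) / 2 := by
    intro k
    rcases k with _ | _ | k
    · norm_num
    · norm_num
    · push_cast; nlinarith [Nat.cast_nonneg (α := ℝ) k]
  have e3 : ∑ L ∈ A, ((D.filter (fun p => inc p L)).card : ℝ) *
      ((D.filter (fun p => inc p L)).card - 1) ≤ (D.card : ℝ) * (D.card - 1) := by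
    have h1 : ∀ n : ℕ, ((n * n - n : ℕ) : ℝ) = (n : ℝ) * (n - 1) := by
      intro n
      rw [Nat.cast_sub (by nlinarith [Nat.zero_le n, Nat.le_mul_self n])]
      push_cast; ring
    have h2 : (A.biUnion fun L => (D.filter (fun p => inc p L)).offDiag).card =
        ∑ L ∈ A, (D.filter (fun p => inc p L)).offDiag.card := by
      refine Finset.card_biUnion ?_
      intro L _ M _ hne
      rw [Function.onFun, Finset.disjoint_left]
      rintro ⟨p, q⟩ h h'
      simp only [Finset.mem_offDiag, Finset.mem_filter] at h h'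
      exact h.2.2 (uniq h.1.2 h'.1.2 h.2.1.2 h'.2.1.2 hne)
    have h3 : (A.biUnion fun L => (D.filter (fun p => inc p L)).offDiag).card ≤
        D.offDiag.card := by
      refine Finset.card_le_card ?_
      intro s hs
      rw [Finset.mem_biUnion] at hs
      obtain ⟨L, _, hs⟩ := hs
      simp only [Finset.mem_offDiag, Finset.mem_filter] at hs ⊢
      exact ⟨hs.1.1, hs.2.1.1, hs.2.2⟩
    rw [h2, Finset.offDiag_card] at h3
    simp only [Finset.offDiag_card] at h3
    have h4 : ((∑ L ∈ A, ((D.filter (fun p => inc p L)).card * (D.filter (fun p => inc p L)).card -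
      (D.filter (fun p => inc p L)).card) : ℕ) : ℝ) ≤ ((D.card * D.card - D.card : ℕ) : ℝ) := by
      exact_mod_cast h3
    rw [h1, Nat.cast_sum] at h4
    refine le_trans (le_of_eq ?_) h4
    refine Finset.sum_congr rfl fun L _ => ?_
    rw [h1]
  rw [e1, Nat.cast_choose_two]
  calc ∑ L ∈ A, ((D.filter (fun p => inc p L)).card : ℝ)
      ≤ ∑ L ∈ A, (1 + ((D.filter (fun p => inc p L)).card : ℝ) *
          ((D.filter (fun p => inc p L)).card - 1) / 2) :=
        Finset.sum_le_sum fun L _ => e2 _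
    _ = A.card + (∑ L ∈ A, ((D.filter (fun p => inc p L)).card : ℝ) *
          ((D.filter (fun p => inc p L)).card - 1)) / 2 := by
        rw [Finset.sum_add_distrib, Finset.sum_div]
        simp
    _ ≤ A.card + (D.card : ℝ) * (D.card - 1) / 2 := by linarith

theorem iff_main (n : ℕ) (hn : 3 ≤ n) (v : ℕ → ℕ)
    (h2 : ∀ i ∈ Finset.Icc 3 (n - 1), v i ≠ 0 → ∑ j ∈ Finset.Icc 3 (n - 1), v j ≤ i + 1) :
    (∃ A : Finset PP, A.card = n ∧ (¬ ∃ p, ∀ L ∈ A, inc p L) ∧
      ∀ i ∈ Finset.Icc 2 (n - 1), ({p | cnt A p = i} : Set PP).ncard = v i) ↔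
    (∑ i ∈ Finset.Icc 2 (n - 1), i.choose 2 * v i = n.choose 2 ∧
      ∑ i ∈ Finset.Icc 3 (n - 1), i * v i ≤
        n + (∑ j ∈ Finset.Icc 3 (n - 1), v j).choose 2) := by
  classical
  constructor
  · rintro ⟨A, hA, hp, hv⟩
    have hn0 : ({p : PP | (A.filter (fun L => ∑ i, p.rep i * L.rep i = 0)).card = n}.ncard : ℕ)
        = 0 := by
      have : ({p : PP | (A.filter (fun L => ∑ i, p.rep i * L.rep i = 0)).card = n} : Set PP) = ∅ := by
        ext p
        simp only [Set.mem_empty_iff_false, iff_false]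
        intro h
        have h' : (A.filter (fun L => ∑ i, p.rep i * L.rep i = 0)).card = n := h
        rw [← hA] at h'
        exact hp ⟨p, fun L hL => (Finset.card_filter_eq_iff.1 h') L hL⟩
      rw [this, Set.ncard_empty]
    have hIcc : Finset.Icc 2 n = insert n (Finset.Icc 2 (n - 1)) := by
      ext k; simp only [Finset.mem_Icc, Finset.mem_insert]; omega
    have hnn : n ∉ Finset.Icc 2 (n - 1) := by rw [Finset.mem_Icc]; omega
    have hIcc2 : Finset.Icc 2 (n - 1) = insert 2 (Finset.Icc 3 (n - 1)) := by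
      ext k; simp only [Finset.mem_Icc, Finset.mem_insert]; omega
    have h22 : (2 : ℕ) ∉ Finset.Icc 3 (n - 1) := by rw [Finset.mem_Icc]; omega
    -- weighted sums
    have W : ∀ w : ℕ → ℝ, ∑ k ∈ Finset.Icc 2 (n - 1), w k * v k = ∑ p ∈ Pts A, w (cnt A p) := by
      intro w
      have h := wsum A w
      rw [hA, hIcc, Finset.sum_insert hnn, hn0] at h
      rw [← h, Nat.cast_zero, mul_zero, zero_add]
      refine Finset.sum_congr rfl fun k hk => ?_
      have : ({p : PP | (A.filter (fun L => ∑ i, p.rep i * L.rep i = 0)).card = k}.ncard : ℕ)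
        = v k := hv k hk
      rw [this]
    constructor
    · have h := W (fun k => (k : ℝ) * (k - 1))
      rw [← pair_sum A, hA] at h
      have : ((∑ i ∈ Finset.Icc 2 (n - 1), i.choose 2 * v i : ℕ) : ℝ) = ((n.choose 2 : ℕ) : ℝ) := by
        push_cast
        rw [Nat.cast_choose_two, ← h, Finset.sum_div]
        refine Finset.sum_congr rfl fun k _ => ?_
        rw [Nat.cast_choose_two]; ring
      exact_mod_cast this
    · set D : Finset PP := (Pts A).filter (fun p => 3 ≤ cnt A p) with hD
      have W3 : ∀ w : ℕ → ℝ, ∑ k ∈ Finset.Icc 3 (n - 1), w k * v k = ∑ p ∈ D, w (cnt A p) := by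
        intro w
        have h := W (fun k => if 3 ≤ k then w k else 0)
        rw [hIcc2, Finset.sum_insert h22] at h
        simp only [show ¬ (3 ≤ 2) by norm_num, if_false, zero_mul, zero_add] at h
        rw [hD, Finset.sum_filter, ← h]
        refine Finset.sum_congr rfl fun k hk => ?_
        rw [if_pos (Finset.mem_Icc.1 hk).1]
      have a := W3 (fun k => (k : ℝ))
      have b := W3 (fun _ => 1)
      have c : D.card = ∑ j ∈ Finset.Icc 3 (n - 1), v j := by
        have : ((D.card : ℕ) : ℝ) = ((∑ j ∈ Finset.Icc 3 (n - 1), v j : ℕ) : ℝ) := by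
          push_cast
          simpa using b.symm
        exact_mod_cast this
      have d := nec A D
      rw [← a, hA, c] at d
      have : ((∑ i ∈ Finset.Icc 3 (n - 1), i * v i : ℕ) : ℝ) ≤
          ((n + (∑ j ∈ Finset.Icc 3 (n - 1), v j).choose 2 : ℕ) : ℝ) := by
        push_cast at d ⊢
        exact d
      exact_mod_cast this
  · rintro ⟨h1, h3⟩
    exact main n hn v h1 h2 h3

end Pool.TH330.CSR
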