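import Pool.Agent.TH330.CSR.Pair

/-!
Disjoint pencils in general position in the real projective plane.
-/

set_option autoImplicit false
open scoped LinearAlgebra.Projectivization
open Finset

noncomputable section

namespace Pool.TH330.CSR

/-- finite points -/
def pt (x y : ℝ) : PP := Projectivization.mk ℝ ![x, y, 1] (by
  intro h; have := congrFun h 2; simp at this)

lemma inc_pt (x y : ℝ) (w : Fin 3 → ℝ) (hw : w ≠ 0) :
    inc (pt x y) (Projectivization.mk ℝ w hw) ↔ x * w 0 + y * w 1 + w 2 = 0 := by
  rw [inc_orth]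
  unfold pt
  rw [Projectivization.orthogonal_mk]
  simp [dotProduct, Fin.sum_univ_three]

lemma pt_inj (y : ℝ) : Function.Injective (fun x => pt x y) := by
  intro a b h
  simp only [pt] at h
  rw [Projectivization.mk_eq_mk_iff'] at h
  obtain ⟨c, hc⟩ := h
  have h0 := congrFun hc 0
  have h2 := congrFun hc 2
  simp at h0 h2
  rw [h2] at h0
  linarith

/-- horizontal lines -/
def hl (c : ℝ) : PP := Projectivization.mk ℝ ![0, 1, -c] (by
  intro h; have := congrFun h 1; simp at this)

lemma hl_inj : Function.Injective hl := by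
  intro a b h
  simp only [hl] at h
  rw [Projectivization.mk_eq_mk_iff'] at h
  obtain ⟨c, hc⟩ := h
  have h0 := congrFun hc 1
  have h2 := congrFun hc 2
  simp at h0 h2
  rw [h0] at h2
  linarith

/-- lines through `pt x y` -/
def sl (x y t : ℝ) : PP := Projectivization.mk ℝ ![t, -1, y - t * x] (by
  intro h; have := congrFun h 1; simp at this)

lemma inc_sl (x y t : ℝ) : inc (pt x y) (sl x y t) := by
  unfold sl
  rw [inc_pt]
  simp; ring

lemma sl_inj (x y : ℝ) : Function.Injective (sl x y) := by
  intro a b h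
  simp only [sl] at h
  rw [Projectivization.mk_eq_mk_iff'] at h
  obtain ⟨c, hc⟩ := h
  have h0 := congrFun hc 0
  have h1 := congrFun hc 1
  simp at h0 h1
  rw [h1] at h0
  linarith

/-- a point outside finitely many lines -/
lemma ex_pt (A : Finset PP) : ∃ x y : ℝ, ∀ L ∈ A, ¬ inc (pt x y) L := by
  classical
  obtain ⟨c, hc⟩ : ∃ c, hl c ∉ A := by
    by_contra h
    push Not at h
    have : (Set.range hl).Finite := A.finite_toSet.subset (by
      rintro _ ⟨c, rfl⟩; exact h c)
    exact Set.infinite_range_of_injective hl_inj this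
  obtain ⟨x, hx⟩ : ∃ x, pt x c ∉ A.image (fun L => mt (hl c, L)) := by
    by_contra h
    push Not at h
    have : (Set.range (fun x => pt x c)).Finite :=
      (A.image (fun L => mt (hl c, L))).finite_toSet.subset (by
        rintro _ ⟨x, rfl⟩; exact h x)
    exact Set.infinite_range_of_injective (pt_inj c) this
  refine ⟨x, c, fun L hL hi => hx ?_⟩
  have hne : hl c ≠ L := fun e => hc (e ▸ hL)
  rw [Finset.mem_image]
  refine ⟨L, hL, ?_⟩
  refine uniq (mt_left hne) (mt_right hne) ?_ hi hne
  unfold hl
  rw [inc_pt]; simp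

/-- adding a pencil -/
lemma pencil (A : Finset PP) (m : ℕ) : ∃ (P : PP) (B : Finset PP), B.card = m ∧ Disjoint A B ∧
    (∀ L ∈ A, ¬ inc P L) ∧ (∀ L ∈ B, inc P L) ∧
    (∀ q, q ≠ P → cnt B q ≤ 1) ∧ (∀ q, 2 ≤ cnt A q → cnt B q = 0) := by
  classical
  obtain ⟨x, y, hP⟩ := ex_pt A
  set P := pt x y with hPd
  have hfin : ∀ q ∈ Pts A, ({t | inc q (sl x y t)} : Set ℝ).Finite := by
    intro q hq
    have hqP : q ≠ P := by
      rintro rfl
      rw [mem_Pts] at hq
      unfold cnt at hq
      obtain ⟨L, hL⟩ := Finset.card_pos.1 (by omega : 0 < (A.filter (fun L => ∑ i, P.rep i * L.rep i = 0)).card)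
      rw [Finset.mem_filter] at hL
      exact hP L hL.1 hL.2
    refine Set.Subsingleton.finite ?_
    intro t ht t' ht'
    by_contra hne
    have hne' : sl x y t ≠ sl x y t' := fun e => hne (sl_inj x y e)
    exact hqP (uniq ht ht' (inc_sl x y t) (inc_sl x y t') hne')
  set bad : Set ℝ := ⋃ q ∈ Pts A, {t | inc q (sl x y t)} with hbad
  have hbf : bad.Finite := (Pts A).finite_toSet.biUnion hfin
  obtain ⟨T, hT, hTc⟩ := hbf.infinite_compl.exists_subset_card_eq m
  have hcard : (T.image (sl x y)).card = m := by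
    rw [Finset.card_image_of_injective _ (sl_inj x y), hTc]
  refine ⟨P, T.image (sl x y), hcard, ?_, hP, ?_, ?_, ?_⟩
  · rw [Finset.disjoint_left]
    intro L hL hL'
    obtain ⟨t, _, rfl⟩ := Finset.mem_image.1 hL'
    exact hP _ hL (inc_sl x y t)
  · intro L hL
    obtain ⟨t, _, rfl⟩ := Finset.mem_image.1 hL
    exact inc_sl x y t
  · intro q hq
    unfold cnt
    rw [Finset.card_le_one]
    intro L hL M hM
    rw [Finset.mem_filter] at hL hM
    obtain ⟨t, _, rfl⟩ := Finset.mem_image.1 hL.1
    obtain ⟨t', _, rfl⟩ := Finset.mem_image.1 hM.1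
    by_contra hne
    exact hq (uniq hL.2 hM.2 (inc_sl x y t) (inc_sl x y t') hne)
  · intro q hq
    unfold cnt
    rw [Finset.card_eq_zero, Finset.filter_eq_empty_iff]
    intro L hL hi
    obtain ⟨t, ht, rfl⟩ := Finset.mem_image.1 hL
    have h1 : t ∈ badᶜ := hT ht
    apply h1
    rw [hbad, Set.mem_iUnion₂]
    exact ⟨q, (mem_Pts A q).2 hq, hi⟩

open Classical in
lemma cnt_union (A B : Finset PP) (h : Disjoint A B) (q : PP) :
    cnt (A ∪ B) q = cnt A q + cnt B q := by
  unfold cnt
  rw [Finset.filter_union, Finset.card_union_of_disjoint (Finset.disjoint_filter_filter h)]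

lemma cnt_zero_of (A : Finset PP) (q : PP) (h : ∀ L ∈ A, ¬ inc q L) : cnt A q = 0 := by
  unfold cnt
  rw [Finset.card_eq_zero, Finset.filter_eq_empty_iff]
  exact fun L hL hi => h L hL hi

lemma cnt_all_of (A : Finset PP) (q : PP) (h : ∀ L ∈ A, inc q L) : cnt A q = A.card := by
  unfold cnt
  rw [Finset.filter_true_of_mem]
  exact fun L hL => h L hL

lemma step (A : Finset PP) (m : ℕ) (hm : m ≠ 0) : ∃ A' : Finset PP, A'.card = A.card + m ∧
    ∀ k, 3 ≤ k → ({p | cnt A' p = k} : Set PP).ncard =
      ({p | cnt A p = k} : Set PP).ncard + if k = m then 1 else 0 := by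
  classical
  obtain ⟨P, B, hB, hd, hPA, hPB, h1, h2⟩ := pencil A m
  refine ⟨A ∪ B, ?_, ?_⟩
  · rw [Finset.card_union_of_disjoint hd, hB]
  intro k hk
  have hP : cnt (A ∪ B) P = m := by
    rw [cnt_union A B hd, cnt_zero_of A P hPA, cnt_all_of B P hPB, hB, zero_add]
  have hPn : P ∉ ({p | cnt A p = k} : Set PP) := by
    intro h
    have h' : cnt A P = k := h
    rw [cnt_zero_of A P hPA] at h'
    omega
  have hq : ∀ q, q ≠ P → (cnt (A ∪ B) q = k ↔ cnt A q = k) := by
    intro q hq
    rw [cnt_union A B hd]
    have a := h1 q hq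
    have b := h2 q
    constructor
    · intro h
      have : 2 ≤ cnt A q := by omega
      have := b this
      omega
    · intro h
      have := b (by omega)
      omega
  have hfin : ({p | cnt A p = k} : Set PP).Finite := by
    refine (Pts A).finite_toSet.subset ?_
    intro p hp
    have hp' : cnt A p = k := hp
    rw [Finset.mem_coe, mem_Pts]; omega
  by_cases hkm : k = m
  · rw [if_pos hkm]
    have e : ({p | cnt (A ∪ B) p = k} : Set PP) = insert P {p | cnt A p = k} := by
      ext q
      by_cases hqP : q = P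
      · subst hqP
        constructor
        · intro _; exact Set.mem_insert _ _
        · intro _; change cnt (A ∪ B) q = k; rw [hP, hkm]
      · constructor
        · intro h; exact Set.mem_insert_of_mem _ ((hq q hqP).1 h)
        · intro h
          rcases h with h | h
          · exact absurd h hqP
          · exact (hq q hqP).2 h
    rw [e, Set.ncard_insert_of_notMem hPn hfin]
  · rw [if_neg hkm, add_zero]
    congr 1
    ext q
    by_cases hqP : q = P
    · subst hqP
      constructor
      · intro h
        have h' : cnt (A ∪ B) q = k := h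
        rw [hP] at h'
        exact absurd h'.symm hkm
      · intro h; exact absurd h hPn
    · exact hq q hqP

/-- all lists of multiplicities -/
lemma real_list (ms : Multiset ℕ) (h : ∀ m ∈ ms, m ≠ 0) : ∃ A : Finset PP, A.card = ms.sum ∧
    ∀ k, 3 ≤ k → ({p | cnt A p = k} : Set PP).ncard = ms.count k := by
  classical
  induction ms using Multiset.induction_on with
  | empty =>
    refine ⟨∅, by simp, fun k hk => ?_⟩
    have : ({p | cnt ∅ p = k} : Set PP) = ∅ := by
      ext p
      simp only [Set.mem_empty_iff_false, iff_false]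
      intro h
      have h' : cnt ∅ p = k := h
      unfold cnt at h'
      simp at h'
      omega
    rw [this]; simp
  | cons m ms ih =>
    obtain ⟨A, hA, hA'⟩ := ih fun m' hm' => h m' (Multiset.mem_cons_of_mem hm')
    obtain ⟨A', hc, hk⟩ := step A m (h m (Multiset.mem_cons_self m ms))
    refine ⟨A', by rw [hc, hA, Multiset.sum_cons, add_comm], fun k h3 => ?_⟩
    rw [hk k h3, hA' k h3, Multiset.count_cons]

end Pool.TH330.CSR
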